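import Pool.Agent.Lib.MP_45b5fd_nt.PER.All1

/-!
# MP_45b5fd_nt: the period of `√d` for every non-square `d`
-/

set_option autoImplicit false

namespace Pool.Agent.Results.MP_45b5fd_nt.AllDiscriminants

/-- There is `C` such that every non-square `d` has a period `p` of the partial quotients of `√d`
with `2 ^ ω(d) * p ≤ C √d exp (∑ (d/q)/q)`, the sum over the primes `q ≤ √d` not dividing `2d`. -/
theorem result : ∃ C : ℝ, 0 < C ∧ ∀ d : ℕ, ¬ IsSquare d → ∃ p : ℕ, 0 < p ∧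
    (2 : ℝ) ^ d.primeFactors.card * (p : ℝ) ≤
      C * Real.sqrt d * Real.exp (∑ q ∈ (Nat.primesLE (Nat.sqrt d)).filter
        (fun q => ¬ q ∣ 2 * d), ((jacobiSym (d : ℤ) q : ℤ) : ℝ) / q) ∧
    ∀ n : ℕ, (GenContFract.of (Real.sqrt (d : ℝ))).partDens.get? (n + p) =
      (GenContFract.of (Real.sqrt (d : ℝ))).partDens.get? n := by
  obtain ⟨C, hC, h⟩ := Pool.Per.All.uni
  refine ⟨C, hC, fun d hd => ?_⟩
  obtain ⟨p, ⟨hp0, hp1⟩, hp2⟩ := h d hd
  exact ⟨p, hp0, hp2, hp1⟩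

end Pool.Agent.Results.MP_45b5fd_nt.AllDiscriminants
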