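import Pool.Agent.Lib.MP_45b5fd_nt.PER.All

/-!
# MP_45b5fd_nt: all orders of all real quadratic fields
-/

set_option autoImplicit false

namespace Pool.Agent.Results.MP_45b5fd_nt.AllOrders

/-- There is an absolute constant `C` such that for every squarefree `m > 1` and every `k ≥ 1`
with `d = m k² ≥ 16` some period `p` of the partial quotients of `√d` satisfies
`2 ^ ω(d) * p ≤ C √d max(log m, log log d)`. -/
theorem result : ∃ C : ℝ, 0 < C ∧ ∀ m k : ℕ, Squarefree m → 1 < m → 0 < k →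
    16 ≤ m * k ^ 2 → ∃ p : ℕ, 0 < p ∧
      (2 : ℝ) ^ (m * k ^ 2).primeFactors.card * (p : ℝ) ≤
        C * Real.sqrt ((m * k ^ 2 : ℕ) : ℝ) *
          max (Real.log m) (Real.log (Real.log ((m * k ^ 2 : ℕ) : ℝ))) ∧
      ∀ n : ℕ,
        (GenContFract.of (Real.sqrt ((m * k ^ 2 : ℕ) : ℝ))).partDens.get? (n + p) =
          (GenContFract.of (Real.sqrt ((m * k ^ 2 : ℕ) : ℝ))).partDens.get? n := by
  obtain ⟨C, hC, h⟩ := Pool.Per.All.orders
  refine ⟨C, hC, fun m k hm h1 hk h16 => ?_⟩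
  obtain ⟨p, ⟨hp0, hp1⟩, hp2⟩ := h m k hm h1 hk h16
  exact ⟨p, hp0, hp2, hp1⟩

end Pool.Agent.Results.MP_45b5fd_nt.AllOrders
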