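import Pool.Agent.Lib.MP_45b5fd_nt.PER.All

/-!
# MP_45b5fd_nt: Q1 outside few quadratic fields, with `2 ^ ω(d)` to spare
-/

set_option autoImplicit false

namespace Pool.Agent.Results.MP_45b5fd_nt.FewFields

/-- There is an absolute constant `C` such that for all integers `X ≥ 2`, `H ≥ 1` at most
`exp (C (1 + log X / H) log (2 + log X / H))` squarefree `m` with `1 < m ≤ X` have a `k ≥ 1` with
`d = m k² ≥ 16` for which no period `p` of the partial quotients of `√d` satisfies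
`2 ^ ω(d) * p ≤ C √d max(H, log log d)`. -/
theorem result : ∃ C : ℝ, 0 < C ∧ ∀ X H : ℕ, 2 ≤ X → 1 ≤ H →
    (({m : ℕ | Squarefree m ∧ 1 < m ∧ m ≤ X ∧ ∃ k : ℕ, 0 < k ∧ 16 ≤ m * k ^ 2 ∧
      ¬ ∃ p : ℕ, 0 < p ∧
        (2 : ℝ) ^ (m * k ^ 2).primeFactors.card * (p : ℝ) ≤
          C * Real.sqrt ((m * k ^ 2 : ℕ) : ℝ) *
            max (H : ℝ) (Real.log (Real.log ((m * k ^ 2 : ℕ) : ℝ))) ∧
        ∀ n : ℕ,
          (GenContFract.of (Real.sqrt ((m * k ^ 2 : ℕ) : ℝ))).partDens.get? (n + p) =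
            (GenContFract.of (Real.sqrt ((m * k ^ 2 : ℕ) : ℝ))).partDens.get? n}
          : Set ℕ).ncard : ℝ) ≤
      Real.exp (C * (1 + Real.log X / H) * Real.log (2 + Real.log X / H)) := by
  obtain ⟨C, hC, h⟩ := Pool.Per.All.dev
  refine ⟨C, hC, fun X H hX hH => ?_⟩
  refine le_trans (le_of_eq ?_) (h X H hX hH)
  congr 2
  ext m
  simp only [Set.mem_ofPred_eq]
  refine and_congr_right fun _ => and_congr_right fun _ => and_congr_right fun _ =>
    exists_congr fun k => and_congr_right fun _ => and_congr_right fun _ =>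
    not_congr (exists_congr fun p => ?_)
  constructor
  · rintro ⟨h1, h2, h3⟩
    exact ⟨⟨h1, h3⟩, h2⟩
  · rintro ⟨⟨h1, h3⟩, h2⟩
    exact ⟨h1, h2, h3⟩

end Pool.Agent.Results.MP_45b5fd_nt.FewFields
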